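import Mathlib
import Pool.Agent.Lib.MP_3f5cd8_lc.Poly

open Pool.Agent.Lib.MP_3f5cd8_lc

open Classical in
/-- Deciding `cr G ≤ k` is fixed-parameter tractable in `k`: one multi-stack Turing machine
with finite stack alphabets outputs the answer within `f k * n ^ c` steps. -/
theorem Pool.Agent.Results.MP_3f5cd8_lc.FPT.result :
    ∃ (f : ℕ → ℕ) (c : ℕ) (M : Turing.TM2ComputableAux Bool Bool),
      Computable f ∧ (∀ j, Finite (M.tm.Γ j)) ∧
      ∀ (n : ℕ) (G : SimpleGraph (Fin n)) (k : ℕ),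
        Nonempty (Turing.TM2OutputsInTime M.tm ((encodeInput G k).map M.inputAlphabet.symm)
          (some ([decide (cr G ≤ k)].map M.outputAlphabet.symm)) (f k * (max n 1) ^ c)) :=
  fpt_of_pt pt_initS.pt pt_stepS.pt pt_flagS.pt pt_outS.pt
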