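import Mathlib
import Pool.Agent.Lib.MP_3f5cd8_lc.Lower

open Pool.Agent.Lib.MP_3f5cd8_lc

/-- The colour-reversal number of a finite graph is at least its number of vertices. -/
theorem Pool.Agent.Results.MP_3f5cd8_lc.LowerBound.result
    (V : Type) [Fintype V] (G : SimpleGraph V) : (Fintype.card V : ℕ∞) ≤ cr G :=
  card_le_cr G
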