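import Pool.Agent.FS.CrThree.Rigid

/-!
A lower bound `3 n` for the colour-reversal number.

`A` is the adjacency matrix over the field with two elements.  A solution `a, b, c, d` of the
matrix equation with `a d + b c = 1` at every vertex is a family of invertible two by two
matrices, one for each vertex, that maps the space of pairs `(x, A x)` to itself.  If all such
families have `b = 0` (then they are trivial), `cr G ≥ 3 n`.  The hypothesis follows from the odd
intersection condition (`rigid_of_odd`), which holds for girth at least five with minimum degree
at least two and for cycles of length at least five.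
-/

open Pool.Agent.Lib.MP_3f5cd8_lc Pool.Agent.FS.CrThree Matrix in
theorem Pool.Agent.Results.MP_3f5cd8_lc.NoLocalSymmetry.result
    (V : Type) [Fintype V] [DecidableEq V] (G : SimpleGraph V) [DecidableRel G.Adj]
    (hG : ∀ a b c d : V → ZMod 2, (∀ v, a v * d v + b v * c v = 1) →
      G.adjMatrix (ZMod 2) * (diagonal a + diagonal b * G.adjMatrix (ZMod 2)) =
        diagonal c + diagonal d * G.adjMatrix (ZMod 2) → b = 0) :
    ((3 * Fintype.card V : ℕ) : ℕ∞) ≤ cr G :=
  three_card_le_cr_rigid G hG
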